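import Pool.Agent.J4.H93.BL.BL2

/-!
# The total stopping time at `a + f(n)`: `a` in an arbitrary set, `f` a polynomial, `n` with restricted digits

Let `f` be an integer polynomial of degree `d ≥ 2` with an arbitrary fixed leading coefficient and arbitrary lower
coefficients, and let `S` be the set of the integers `n` below `b ^ k` with restricted digits: the `i`-th digit lies in a
given set `D i` with at least two elements. Let `N ≍ b ^ (d k)`, let `A` be an ARBITRARY set of integers in `[-N, N]` and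
`B` an ARBITRARY subset of `S`. Then the total stopping times of the `3x+1` function at the positive numbers among the
`a + f(n)`, `a ∈ A`, `n ∈ B`, follow the same limit law as for all integers, also in residue classes, and so do their
truncated averages. Since `A` and `B` are arbitrary, the total stopping time of `a + f(n)` is asymptotically independent
of all the events that depend on `a` only and of all the events that depend on `n` only; in particular the total stopping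
times of `a` and of `a + f(n)` are asymptotically independent.

Proof: the sums `∑ w_a u_n F(a + f(n))` with arbitrary bounded weights are small for every function `F` with small Fourier
coefficients (`Pool.Agent.J4.H93.BL.bil`), since a high moment of the exponential sum `∑ u_n e(f(n) θ)` over the
frequencies `θ = t / M` is bounded, for arbitrary weights `u_n` (`Pool.Agent.J4.H93.BL.wlaw`); the Fourier uniformity of the level
sets of the total stopping time is the theorem `fou_level` of the starting files.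
-/

set_option autoImplicit false

namespace Pool.Agent.Results.MP_a1568a_nt.DigitPolynomialSums

open Filter Topology Polynomial

/-- the `3x+1` function -/
def T (n : ℕ) : ℕ := if n % 2 = 0 then n / 2 else (3 * n + 1) / 2

/-- the total stopping time, the least `k` with `T^k(n) = 1`, and `⊤ = ∞` if there is none -/
noncomputable def sigma (n : ℕ) : ℕ∞ := sInf {k : ℕ∞ | ∃ j : ℕ, T^[j] n = 1 ∧ k = j}

/-- the total stopping time truncated at `t`, that is `min (σ(n), t)` -/
noncomputable def truncated (t : ℝ) (n : ℕ) : ℝ := if sigma n = ⊤ then t else min ((sigma n).toNat : ℝ) t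

/-- the positive integers with the property `P` have the natural density `δ` -/
def HasDensity (P : ℕ → Prop) (δ : ℝ) : Prop :=
  Tendsto (fun N : ℕ => ({n : ℕ | 1 ≤ n ∧ n ≤ N ∧ P n}.ncard : ℝ) / N) atTop (𝓝 δ)

/-- `2 / log (4/3) * log n + x * log 3 * √(2 log n / (log (4/3))^3)` -/
noncomputable def bound (x : ℝ) (n : ℕ) : ℝ :=
  2 / Real.log (4 / 3) * Real.log n
    + x * (Real.log 3 * Real.sqrt (2 * Real.log n / Real.log (4 / 3) ^ 3))

/-- The distribution function of the standard normal law. -/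
noncomputable def Phi (x : ℝ) : ℝ :=
  ProbabilityTheory.cdf (ProbabilityTheory.gaussianReal 0 1) x

/-- The total stopping time of `n` is finite, at most `bound x n` and congruent to `r` modulo `m`. -/
def Level (m : ℕ) (r : ℤ) (x : ℝ) (n : ℕ) : Prop :=
  ∃ t : ℕ, sigma n = t ∧ (t : ℝ) ≤ bound x n ∧ (t : ℤ) ≡ r [ZMOD m]

/-- The integers below `b ^ k` whose `i`-th digit in base `b` lies in `D i`, for all `i < k`. -/
def S (b : ℕ) (D : ℕ → Finset ℕ) (k : ℕ) : Finset ℕ :=
  (Finset.range (b ^ k)).filter (fun n : ℕ => ∀ i < k, n / b ^ i % b ∈ D i)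

/-- the pairs `(a, n)` of `A × B` with `a + f(n) > 0` -/
def Pairs (f : ℤ[X]) (A : Finset ℤ) (B : Finset ℕ) : Finset (ℤ × ℕ) :=
  (A ×ˢ B).filter (fun z => 0 < z.1 + f.eval (z.2 : ℤ))

/-- `b ^ (d k) ≤ N ≤ R b ^ (d k)`, every `D i` contains at least two digits in base `b`, `f` has degree `d` and leading
coefficient `κ`, and `|f(n)| ≤ N` for the integers `n` of `S` -/
def Data (b d R : ℕ) (κ : ℤ) (k N : ℕ) (D : ℕ → Finset ℕ) (f : ℤ[X]) : Prop :=
  b ^ (d * k) ≤ N ∧ N ≤ R * b ^ (d * k) ∧ (∀ i < k, D i ⊆ Finset.range b ∧ 2 ≤ (D i).card) ∧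
    f.natDegree = d ∧ f.leadingCoeff = κ ∧ ∀ n ∈ S b D k, |f.eval (n : ℤ)| ≤ N

open Pool.Agent.H499R2.HL in
theorem sigma_eq {n k : ℕ} (h : H k n) : sigma n = k := by
  unfold sigma
  apply le_antisymm
  · exact sInf_le ⟨k, h.1, rfl⟩
  · refine le_sInf ?_
    rintro j ⟨i, hi, rfl⟩
    have : k ≤ i := by
      by_contra hlt
      exact h.2 i (by omega) hi
    exact_mod_cast this

open Pool.Agent.H499R2.HL in
theorem exists_H {n j : ℕ} (h : T^[j] n = 1) : ∃ k, H k n := by
  classical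
  have hex : ∃ k, T^[k] n = 1 := ⟨j, h⟩
  exact ⟨Nat.find hex, Nat.find_spec hex, fun i hi => Nat.find_min hex hi⟩

open Pool.Agent.H499R2.HL in
theorem sigma_top {n : ℕ} (h : ¬ ∃ k, H k n) : sigma n = ⊤ := by
  unfold sigma
  have : {k : ℕ∞ | ∃ j : ℕ, T^[j] n = 1 ∧ k = j} = ∅ := by
    rw [Set.eq_empty_iff_forall_notMem]
    rintro k ⟨j, hj, _⟩
    exact h (exists_H hj)
  rw [this, sInf_empty]

open Pool.Agent.H499R2.HL in
theorem sigma_ne_top {n : ℕ} : sigma n ≠ ⊤ ↔ ∃ k, H k n := by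
  constructor
  · intro h
    by_contra hcon
    exact h (sigma_top hcon)
  · rintro ⟨k, hk⟩
    rw [sigma_eq hk]
    exact ENat.natCast_ne_top k

open Pool.Agent.H499R2.HL in
theorem sigma_iff {n k : ℕ} : sigma n = k ↔ H k n := by
  constructor
  · intro h
    obtain ⟨k', hk'⟩ := sigma_ne_top.1 (show sigma n ≠ ⊤ by rw [h]; exact ENat.natCast_ne_top k)
    have h1 := sigma_eq hk'
    rw [h] at h1
    have h2 : k = k' := by exact_mod_cast h1
    rw [h2]; exact hk'
  · exact sigma_eq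

theorem truncated_isTr : Pool.Agent.TH465.PP.IsTrG Pool.Agent.TH465.PP.valK truncated := by
  constructor
  · intro t n k hk
    unfold truncated
    rw [sigma_eq hk, if_neg (ENat.natCast_ne_top k), ENat.toNat_natCast]
    rfl
  · intro t n hn
    unfold truncated
    rw [sigma_top hn, if_pos rfl]

theorem level_iff' (m : ℕ) (r : ℤ) (x : ℝ) (n : ℕ) : Level m r x n ↔
    Pool.Agent.W36.JL.EB m r (Pool.Agent.W36.JL.bd x n) n := by
  have hb : bound x n = Pool.Agent.W36.JL.bd x n := rfl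
  unfold Level
  rw [hb]
  unfold Pool.Agent.W36.JL.EB
  constructor
  · rintro ⟨t, h1, h2, h3⟩
    exact ⟨t, h2, sigma_iff.1 h1, h3⟩
  · rintro ⟨t, h2, h1, h3⟩
    exact ⟨t, sigma_iff.2 h1, h2, h3⟩

theorem level_iff (m : ℕ) (r : ℤ) (x : ℝ) (z : ℤ) (hz : 0 < z) : Level m r x z.toNat ↔
    Pool.Agent.TH465.PP.LvZ Pool.Agent.TH465.PP.valK (Pool.Agent.TH465.PP.clsK m r)
      (Pool.Agent.TH465.PP.th Pool.Agent.TH465.PP.A0 Pool.Agent.TH465.PP.c0 x) z := by
  unfold Pool.Agent.TH465.PP.LvZ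
  rw [Pool.Agent.TH465.PP.lv_iff, level_iff']
  exact ⟨fun h => ⟨hz, h⟩, fun h => h.2⟩

open Classical in
/-- **The total stopping time at `a + f(n)`.** The integers with finite total stopping time have a positive natural
density `δ`, and `δ = 1` if and only if all positive integers are of this kind. Let `b ≥ 2`, `d ≥ 2`, `R`, `κ ≠ 0` be
fixed and `ε > 0`. For all large `k`, all sets `D i` of at least two digits in base `b`, all integer polynomials `f` of
degree `d` with leading coefficient `κ` (the lower coefficients are arbitrary), all `N` with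
`b ^ (d k) ≤ N ≤ R b ^ (d k)` and `|f(n)| ≤ N` for the integers `n` in the set `S` of the integers below `b ^ k` with digits
in the sets `D i`, for ALL sets `A` of integers in `[-N, N]` and ALL subsets `B` of `S`:

(1) (law) the number of the pairs `(a, n)` of `A × B` for which `a + f(n)` is positive and has a finite total
stopping time, congruent to `r` modulo `m` and at most `bound x (a + f(n))`, is `δ * Phi x / m` times the number of
the pairs with `a + f(n) > 0`, up to `ε N |S|` (for fixed `m ≥ 1`, `r` and `x`);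

(2) (truncated averages) the mean value of `min (σ(a + f(n)), Λ log N) / log N` over these pairs is
`δ * 2 / log (4/3) + (1 - δ) * Λ`, in the same sense (for fixed `Λ > 2 / log (4/3)`);

(3) (independence) if `f(n) ≥ 0` for the integers `n` of `S`, then the number of the pairs `(a, n)` with `1 ≤ a ≤ N` and
`n ∈ B`, such that `a` and `a + f(n)` have finite total stopping times, congruent to `r`, `r'` modulo `m`, `m'` and at
most `bound x a`, `bound x' (a + f(n))`, is `(δ * Phi x / m) * (δ * Phi x' / m') * N |B|` up to `ε N |S|`. -/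
theorem result : ∃ δ : ℝ, 0 < δ ∧ δ ≤ 1 ∧ (δ = 1 ↔ ∀ n : ℕ, 1 ≤ n → sigma n ≠ ⊤) ∧
    HasDensity (fun n => sigma n ≠ ⊤) δ ∧
    ∀ b d R : ℕ, 2 ≤ b → 2 ≤ d → ∀ κ : ℤ, κ ≠ 0 →
    (∀ (m : ℕ) (r : ℤ) (x : ℝ), 1 ≤ m → ∀ ε : ℝ, 0 < ε → ∃ k₀ : ℕ, ∀ k : ℕ, k₀ ≤ k →
      ∀ (N : ℕ) (D : ℕ → Finset ℕ) (f : ℤ[X]), Data b d R κ k N D f →
      ∀ A : Finset ℤ, A ⊆ Finset.Icc (-(N : ℤ)) N → ∀ B : Finset ℕ, B ⊆ S b D k →
      |(((Pairs f A B).filter (fun z => Level m r x (z.1 + f.eval (z.2 : ℤ)).toNat)).card : ℝ) -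
        δ * Phi x / m * (Pairs f A B).card| ≤ ε * N * (S b D k).card) ∧
    (∀ Λ : ℝ, 2 / Real.log (4 / 3) < Λ → ∀ ε : ℝ, 0 < ε → ∃ k₀ : ℕ, ∀ k : ℕ, k₀ ≤ k →
      ∀ (N : ℕ) (D : ℕ → Finset ℕ) (f : ℤ[X]), Data b d R κ k N D f →
      ∀ A : Finset ℤ, A ⊆ Finset.Icc (-(N : ℤ)) N → ∀ B : Finset ℕ, B ⊆ S b D k →
      |∑ z ∈ Pairs f A B, truncated (Λ * Real.log N) (z.1 + f.eval (z.2 : ℤ)).toNat / Real.log N -
        (δ * (2 / Real.log (4 / 3)) + (1 - δ) * Λ) * (Pairs f A B).card| ≤ ε * N * (S b D k).card) ∧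
    (∀ (m : ℕ) (r : ℤ) (x : ℝ) (m' : ℕ) (r' : ℤ) (x' : ℝ), 1 ≤ m → 1 ≤ m' → ∀ ε : ℝ, 0 < ε → ∃ k₀ : ℕ, ∀ k : ℕ, k₀ ≤ k →
      ∀ (N : ℕ) (D : ℕ → Finset ℕ) (f : ℤ[X]), Data b d R κ k N D f → (∀ n ∈ S b D k, 0 ≤ f.eval (n : ℤ)) →
      ∀ B : Finset ℕ, B ⊆ S b D k →
      |((((Finset.Icc 1 N) ×ˢ B).filter (fun z => Level m r x z.1 ∧
          Level m' r' x' ((z.1 : ℤ) + f.eval (z.2 : ℤ)).toNat)).card : ℝ) -
        (δ * Phi x / m) * (δ * Phi x' / m') * (N * B.card)| ≤ ε * N * (S b D k).card) := by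
  obtain ⟨δ, hδ, h2, h3⟩ := Pool.Agent.TH465.PP.denK
  have hT : ∀ n : ℕ, sigma n ≠ ⊤ ↔ ∃ k : ℕ, T^[k] n = 1 := by
    intro n
    rw [sigma_ne_top]
    constructor
    · rintro ⟨k, hk⟩; exact ⟨k, hk.1⟩
    · rintro ⟨k, hk⟩; exact exists_H hk
  have hP : ∀ x, Phi x = Pool.Agent.H499R2.ND.Phi x := fun x => (Pool.Agent.H499R2.ND.phi_cdf x).symm
  have hone : ∀ (b d R : ℕ), 2 ≤ b → 2 ≤ d → ∀ κ : ℤ, κ ≠ 0 →
      (∀ (m : ℕ) (r : ℤ) (x : ℝ), 1 ≤ m → ∀ ε : ℝ, 0 < ε → ∃ k₀ : ℕ, ∀ k : ℕ, k₀ ≤ k →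
      ∀ (N : ℕ) (D : ℕ → Finset ℕ) (f : ℤ[X]), Data b d R κ k N D f →
      ∀ A : Finset ℤ, A ⊆ Finset.Icc (-(N : ℤ)) N → ∀ B : Finset ℕ, B ⊆ S b D k →
      |(((Pairs f A B).filter (fun z => Level m r x (z.1 + f.eval (z.2 : ℤ)).toNat)).card : ℝ) -
        δ * Phi x / m * (Pairs f A B).card| ≤ ε * N * (S b D k).card) := by
    intro b d R hb hd κ hκ m r x hm ε hε
    obtain ⟨e, rfl⟩ : ∃ e, d = e + 2 := ⟨d - 2, by omega⟩
    obtain ⟨d1, d2⟩ := Pool.Agent.TH465.PP.dmem hδ.pos hδ.le_one hm x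
    obtain ⟨k₀, h4⟩ := Pool.Agent.J4.H93.BL.dig_law d1 d2 (Pool.Agent.TH465.PP.fou_level hδ hm r x) b hb e κ hκ (R + 1)
      (by omega) ε hε
    refine ⟨k₀, fun k hk N D f hf A hA B hB => ?_⟩
    obtain ⟨hN1, hN2, hD, hf1, hf2, hfN⟩ := hf
    have hc : f.coeff (e + 2) = κ := by rw [← hf2, Polynomial.leadingCoeff, hf1]
    have h5 := Pool.Agent.J4.H93.PD.PF_poly f (e + 2) hf1.le
    rw [hc] at h5
    have h6 := h4 k N hk hN1 (hN2.trans (Nat.mul_le_mul_right _ (by omega))) D hD (fun n => f.eval (n : ℤ)) _ h5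
      (fun n => Pool.Agent.J4.H93.PD.poly_val f n) hfN A hA B hB
    have e1 : (Pairs f A B).filter (fun z => Level m r x (z.1 + f.eval (z.2 : ℤ)).toNat) =
        (Pool.Agent.J4.H93.BL.PFi A B (fun n => f.eval (n : ℤ))).filter (fun z => Pool.Agent.TH465.PP.LvZ
          Pool.Agent.TH465.PP.valK (Pool.Agent.TH465.PP.clsK m r)
          (Pool.Agent.TH465.PP.th Pool.Agent.TH465.PP.A0 Pool.Agent.TH465.PP.c0 x) (z.1 + f.eval (z.2 : ℤ))) := by
      ext z
      rw [Finset.mem_filter, Finset.mem_filter]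
      change (z ∈ Pairs f A B ∧ _) ↔ (z ∈ Pairs f A B ∧ _)
      refine and_congr_right fun hz => ?_
      exact level_iff m r x _ (Finset.mem_filter.1 hz).2
    rw [e1, hP x]
    exact h6
  refine ⟨δ, hδ.pos, hδ.le_one, ?_, ?_, fun b d R hb hd κ hκ => ⟨hone b d R hb hd κ hκ, fun Λ hΛ ε hε => ?_, ?_⟩⟩
  · rw [h2]
    exact forall₂_congr fun n _ => (hT n).symm
  · have : HasDensity (fun n => ∃ k : ℕ, T^[k] n = 1) δ := h3
    simpa only [hT] using this
  · obtain ⟨e, rfl⟩ : ∃ e, d = e + 2 := ⟨d - 2, by omega⟩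
    have hF := fun y => Pool.Agent.TH465.PP.fouG hδ y
    obtain ⟨k₀, h4⟩ := Pool.Agent.J4.H93.BL.dig_avg (fun k _ => Nat.cast_nonneg k) Pool.Agent.TH465.PP.A0_pos
      Pool.Agent.TH465.PP.c0_pos hδ.pos.le hδ.le_one hδ.fin hδ.lawG hF truncated_isTr hΛ b hb e κ hκ (R + 1) (by omega) ε hε
    refine ⟨k₀ + 3, fun k hk N D f hf A hA B hB => ?_⟩
    obtain ⟨hN1, hN2, hD, hf1, hf2, hfN⟩ := hf
    have hc : f.coeff (e + 2) = κ := by rw [← hf2, Polynomial.leadingCoeff, hf1]
    have h5 := Pool.Agent.J4.H93.PD.PF_poly f (e + 2) hf1.le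
    rw [hc] at h5
    have h6 := h4 k N (by omega) hN1 (hN2.trans (Nat.mul_le_mul_right _ (by omega))) D hD (fun n => f.eval (n : ℤ)) _ h5
      (fun n => Pool.Agent.J4.H93.PD.poly_val f n) hfN A hA B hB
    have hN : 3 ≤ N := by
      calc 3 ≤ k := by omega
        _ ≤ (e + 2) * k := Nat.le_mul_of_pos_left _ (by omega)
        _ ≤ b ^ ((e + 2) * k) := (Nat.lt_pow_self (by omega)).le
        _ ≤ N := hN1
    have hL : 0 < Real.log (N : ℝ) := Real.log_pos (by exact_mod_cast (by omega : 1 < N))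
    rw [← Finset.sum_div, ← mul_le_mul_iff_left₀ hL, ← abs_of_pos hL, ← abs_mul, abs_of_pos hL]
    refine le_trans (le_of_eq ?_) h6
    congr 1
    change ((∑ z ∈ Pairs f A B, truncated (Λ * Real.log N) (z.1 + f.eval (z.2 : ℤ)).toNat) / Real.log N -
      (δ * (2 / Real.log (4 / 3)) + (1 - δ) * Λ) * (Pairs f A B).card) * Real.log N =
      ∑ z ∈ Pairs f A B, truncated (Λ * Real.log N) (z.1 + f.eval (z.2 : ℤ)).toNat -
        (δ * (2 / Real.log (4 / 3)) + (1 - δ) * Λ) * (Pairs f A B).card * Real.log N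
    field_simp
  · intro m r x m' r' x' hm hm' ε hε
    obtain ⟨k₀, h4⟩ := hone b d R hb hd κ hκ m' r' x' hm' (ε / 2) (by positivity)
    have h5 : HasDensity (fun n => Level m r x n) (δ * Phi x / m) := by
      have h6 := hδ.law m r hm x
      rw [← hP x] at h6
      have h7 : HasDensity (fun n => Pool.Agent.W36.JL.EB m r (Pool.Agent.W36.JL.bd x n) n) (δ * Phi x / m) := h6
      simpa only [← level_iff'] using h7
    obtain ⟨N₀, hN₀⟩ := eventually_atTop.1 ((Metric.tendsto_nhds.1 h5) (ε / 2) (by positivity))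
    refine ⟨k₀ + N₀ + 1, fun k hk N D f hf hf0 B hB => ?_⟩
    have hf' := hf
    obtain ⟨hN1, hN2, hD, hf1, hf2, hfN⟩ := hf'
    have hN : k ≤ N := by
      calc k ≤ d * k := Nat.le_mul_of_pos_left _ (by omega)
        _ ≤ b ^ (d * k) := (Nat.lt_pow_self (by omega)).le
        _ ≤ N := hN1
    have hN0 : (0 : ℝ) < N := by exact_mod_cast (by omega : 0 < N)
    -- the set of the `a`
    obtain ⟨A₀, hA₀⟩ : ∃ A₀, A₀ = (Finset.Icc 1 N).filter (fun a => Level m r x a) := ⟨_, rfl⟩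
    have hinj : Function.Injective (fun a : ℕ => (a : ℤ)) := Nat.cast_injective
    obtain ⟨A, hA⟩ : ∃ A : Finset ℤ, A = A₀.map ⟨fun a : ℕ => (a : ℤ), hinj⟩ := ⟨_, rfl⟩
    have hAmem : ∀ z ∈ A, ∃ a ∈ A₀, (a : ℤ) = z := by
      intro z hz
      rw [hA, Finset.mem_map] at hz
      exact hz
    have hAN : A ⊆ Finset.Icc (-(N : ℤ)) N := by
      intro z hz
      obtain ⟨a, ha, rfl⟩ := hAmem z hz
      rw [hA₀, Finset.mem_filter, Finset.mem_Icc] at ha
      rw [Finset.mem_Icc]
      omega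
    have h6 := h4 k (by omega) N D f hf A hAN B hB
    have hPairs : Pairs f A B = A ×ˢ B := by
      unfold Pairs
      apply Finset.filter_true_of_mem
      rintro ⟨z, n⟩ hz
      rw [Finset.mem_product] at hz
      obtain ⟨a, ha, h7⟩ := hAmem z hz.1
      rw [hA₀, Finset.mem_filter, Finset.mem_Icc] at ha
      have h8 := hf0 n (hB hz.2)
      simp only
      omega
    have hcA : A.card = A₀.card := by rw [hA, Finset.card_map]
    have hcount : ((Pairs f A B).filter (fun z => Level m' r' x' (z.1 + f.eval (z.2 : ℤ)).toNat)).card =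
        (((Finset.Icc 1 N) ×ˢ B).filter (fun z => Level m r x z.1 ∧
          Level m' r' x' ((z.1 : ℤ) + f.eval (z.2 : ℤ)).toNat)).card := by
      rw [hPairs]
      symm
      refine Finset.card_bij (fun z _ => ((z.1 : ℤ), z.2)) ?_ ?_ ?_
      · rintro ⟨a, n⟩ hz
        rw [Finset.mem_filter, Finset.mem_product] at hz
        rw [Finset.mem_filter, Finset.mem_product]
        refine ⟨⟨?_, hz.1.2⟩, hz.2.2⟩
        rw [hA, Finset.mem_map]
        exact ⟨a, by rw [hA₀, Finset.mem_filter]; exact ⟨hz.1.1, hz.2.1⟩, rfl⟩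
      · rintro ⟨a, n⟩ _ ⟨a', n'⟩ _ h
        rw [Prod.mk.injEq] at h ⊢
        exact ⟨by exact_mod_cast h.1, h.2⟩
      · rintro ⟨z, n⟩ hz
        rw [Finset.mem_filter, Finset.mem_product] at hz
        obtain ⟨a, ha, h7⟩ := hAmem z hz.1.1
        rw [hA₀, Finset.mem_filter] at ha
        subst h7
        exact ⟨(a, n), by rw [Finset.mem_filter, Finset.mem_product]; exact ⟨⟨ha.1, hz.1.2⟩, ha.2, hz.2⟩, rfl⟩
    rw [hcount, hPairs, Finset.card_product, hcA] at h6
    -- the density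
    have h7 : |(A₀.card : ℝ) - δ * Phi x / m * N| ≤ ε / 2 * N := by
      have h8 := hN₀ N (by omega)
      have h9 : {n : ℕ | 1 ≤ n ∧ n ≤ N ∧ Level m r x n} = (A₀ : Set ℕ) := by
        ext n
        rw [hA₀]
        simp only [Set.mem_setOf_eq, Finset.coe_filter, Finset.mem_Icc]
        tauto
      simp only [h9, Set.ncard_coe_finset, Real.dist_eq] at h8
      have h10 : (A₀.card : ℝ) - δ * Phi x / m * N = ((A₀.card : ℝ) / N - δ * Phi x / m) * N := by
        field_simp
      rw [h10, abs_mul, abs_of_pos hN0]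
      exact mul_le_mul_of_nonneg_right h8.le hN0.le
    have hBS : (B.card : ℝ) ≤ (S b D k).card := by exact_mod_cast Finset.card_le_card hB
    obtain ⟨d1, d2⟩ := Pool.Agent.TH465.PP.dmem hδ.pos hδ.le_one hm' x'
    rw [← hP x'] at d1 d2
    push_cast at h6
    have e1 : ((((Finset.Icc 1 N) ×ˢ B).filter (fun z => Level m r x z.1 ∧
          Level m' r' x' ((z.1 : ℤ) + f.eval (z.2 : ℤ)).toNat)).card : ℝ) -
        (δ * Phi x / m) * (δ * Phi x' / m') * (N * B.card) =
        (((((Finset.Icc 1 N) ×ˢ B).filter (fun z => Level m r x z.1 ∧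
          Level m' r' x' ((z.1 : ℤ) + f.eval (z.2 : ℤ)).toNat)).card : ℝ) - δ * Phi x' / m' * (A₀.card * B.card)) +
        (δ * Phi x' / m') * B.card * ((A₀.card : ℝ) - δ * Phi x / m * N) := by ring
    rw [e1]
    refine (abs_add_le _ _).trans ?_
    have e2 : |(δ * Phi x' / m') * B.card * ((A₀.card : ℝ) - δ * Phi x / m * N)| ≤ ε / 2 * N * (S b D k).card := by
      rw [abs_mul, abs_of_nonneg (by positivity)]
      calc (δ * Phi x' / m') * B.card * |(A₀.card : ℝ) - δ * Phi x / m * N| ≤ (1 * (S b D k).card) * (ε / 2 * N) :=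
            mul_le_mul (mul_le_mul d2 hBS (by positivity) zero_le_one) h7 (abs_nonneg _) (by positivity)
        _ = _ := by ring
    calc _ ≤ ε / 2 * N * (S b D k).card + ε / 2 * N * (S b D k).card := add_le_add h6 e2
      _ = _ := by ring

end Pool.Agent.Results.MP_a1568a_nt.DigitPolynomialSums
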