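import Pool.Agent.J4.H12.IE.Fin

set_option autoImplicit false

/-!
# Total stopping times of the `3x+1` map: independence of structured events, and Szemerédi's theorem

Let `Λ` be a nonzero integral linear form in `D + 1` variables and let `E 1, …, E K` be ARBITRARY sets of
integer points, each of which is invariant under some translation `v l` with `Λ (v l) ≠ 0`. Then the total
stopping time at `Λ • v + c` is asymptotically independent of the event that the point `v` is in all the
sets `E l`: among the points of a box which are in all the `E l` the values `Λ • v + c` are in the basin of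
`1`, with total stopping times in a given residue class and below the threshold `bound x`, with the relative
frequency `δ Φ(x) / m`, up to an error which is small in comparison with the number of all points of the box.
The error is uniform in the sets `E l`, which need not have any arithmetical structure.

Special cases.

* (cliques of hypergraphs) `E j` does not depend on the coordinate `j`. So for ARBITRARY graphs on
  `{1, …, N}` the total stopping times of the sums `u + v + w` over the triangles `uvw` of the graph follow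
  the limit law, provided that there are at least `ε N³` triangles; the same for the complete `s`-uniform
  subhypergraphs on `s + 1` vertices of arbitrary `s`-uniform hypergraphs.
* (configurations) `E b = {(u, d) : u + d F_b ∈ A_b}` with arbitrary sets `A_b` of points of `ℤ ^ e`, which is
  invariant under the translation by `(- F_b, 1)`. So the total stopping time of the common difference `d` of
  the arithmetic progressions (homothetic configurations) in an arbitrary set follows the limit law.

With the density Hales-Jewett theorem (proved in the starting files) it follows that every set `A` of a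
positive proportion of the points of `{1, …, N} ^ e` contains the right number `c N ^ (e + 1)` of
configurations `u + d F_0, …, u + d F_q` whose common difference `d` reaches `1` after a number of steps which
is in a given residue class modulo `m`, larger than `bound y d` and at most `bound x d`, for all real `y < x`.
For `x = 0` this is `σ(d) ≤ 2 / log (4/3) * log d`.

Proof. The balanced functions of the level sets have small Gowers norms of every order (starting files,
`Pool.Agent.W36.JL`, `Pool.Agent.W36.GK.GN_all`); a function with a small Gowers norm of order `K + 2` at the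
form `Λ` has small correlation with the product of `K` bounded functions invariant under the translations
`v l`, by repeated use of the Cauchy-Schwarz inequality in the directions `v l` (`inv_small`).
-/

namespace Pool.Agent.Results.MP_a1568a_nt.StructuredIndependence

open Filter Topology

/-- the `3x+1` function -/
def T (n : ℕ) : ℕ := if n % 2 = 0 then n / 2 else (3 * n + 1) / 2

/-- `t` is the total stopping time of `n` -/
def IsTotalStoppingTime (n t : ℕ) : Prop := T^[t] n = 1 ∧ ∀ j < t, T^[j] n ≠ 1

/-- the positive integers with the property `P` have the natural density `δ` -/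
def HasDensity (P : ℕ → Prop) (δ : ℝ) : Prop :=
  Tendsto (fun N : ℕ => ({n : ℕ | 1 ≤ n ∧ n ≤ N ∧ P n}.ncard : ℝ) / N) atTop (𝓝 δ)

/-- `2 / log (4/3) * log n + x * log 3 * √(2 log n / (log (4/3))^3)` -/
noncomputable def bound (x : ℝ) (n : ℕ) : ℝ :=
  2 / Real.log (4 / 3) * Real.log n
    + x * (Real.log 3 * Real.sqrt (2 * Real.log n / Real.log (4 / 3) ^ 3))

/-- The distribution function of the standard normal law. -/
noncomputable def Phi (x : ℝ) : ℝ :=
  ProbabilityTheory.cdf (ProbabilityTheory.gaussianReal 0 1) x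

/-- The positive integers with a finite total stopping time which is at most `bound x n` and congruent
to `a` modulo `m`. -/
def Level (m : ℕ) (a : ℤ) (x : ℝ) : Set ℤ :=
  {n : ℤ | 0 < n ∧ ∃ t : ℕ, (t : ℝ) ≤ bound x n.toNat ∧ IsTotalStoppingTime n.toNat t ∧ (t : ℤ) ≡ a [ZMOD m]}

/-- The number of the integer points `v` of the box `∏ (P j, P' j]` which are in all the sets `E l`, such
that the value `Λ • v + c` is in `S` and in the interval `(M, N]`. -/
noncomputable def Points {D K : ℕ} (Λ : Fin D → ℤ) (c : ℤ) (M N : ℕ) (P P' : Fin D → ℤ)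
    (E : Fin K → Set (Fin D → ℤ)) (S : Set ℤ) : ℕ :=
  {v : Fin D → ℤ | (∀ j, P j < v j ∧ v j ≤ P' j) ∧ (∀ l, v ∈ E l) ∧ (∑ j, Λ j * v j + c) ∈ S ∧
    (M : ℤ) < ∑ j, Λ j * v j + c ∧ ∑ j, Λ j * v j + c ≤ N}.ncard

theorem level_eq (m : ℕ) (a : ℤ) (x : ℝ) : Level m a x = Pool.Agent.W36.JL.SX m a x := rfl

theorem points_eq {D K : ℕ} (Λ : Fin D → ℤ) (c : ℤ) (M N : ℕ) (P P' : Fin D → ℤ)
    (E : Fin K → Set (Fin D → ℤ)) (S : Set ℤ) :
    Points Λ c M N P P' E S = Pool.Agent.J4.H12.IE.Pts Λ c M N P P' E S := rfl

/-- **Independence of the total stopping time at a linear form from all events that are invariant under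
translations changing the form.** There is `δ > 0`, the natural density of the integers with a finite total
stopping time, such that:

(1) For all `D`, `K`, `m ≥ 1`, all linear forms `Λ ≠ 0` in `D + 1` variables, all translations
`v 1, …, v K` with `Λ (v l) ≠ 0`, all `a`, `x` and `ε > 0`, if `X` is large: for ALL sets `E l` of integer
points invariant under the translation by `v l`, all `c`, all intervals `(M, N]`, `N ≤ X`, and all boxes with
sides at most `X` the number of the points of the box in `⋂ E l` for which the value `Λ • v + c` is in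
`(M, N]` and has a finite total stopping time, congruent to `a` modulo `m` and at most `bound x` of the
value, is `δ Φ(x) / m` times the number of the points of the box in `⋂ E l` with a value in `(M, N]`, up to
`ε X ^ (D + 1)`.

(2) (cliques) For all `s`, `m ≥ 1`, all `κ j ≠ 0`, `a`, `x` and `ε > 0`, if `N` is large: for ALL sets `H j` of
points with `s + 1` coordinates that do not depend on the coordinate `j`, and `|c| ≤ N`, the number of the
`v ∈ {1, …, N} ^ (s + 1)` in all the `H j` for which `∑ κ j v j + c` is in `Level m a x` is `δ Φ(x) / m` times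
the number of those for which this sum is positive, up to `ε N ^ (s + 1)`.

(3) (Szemerédi) For all `e`, `m ≥ 1`, all points `F 0, …, F q` of `ℤ ^ e`, all `a`, `y < x` and `α > 0` there are
`c > 0` and `N₀` such that for `N ≥ N₀` every set `A` of at least `α N ^ e` points of `{1, …, N} ^ e` contains at
least `c N ^ (e + 1)` configurations `u + d F 0, …, u + d F q` with `1 ≤ d ≤ N` such that `d` has a finite
total stopping time, congruent to `a` modulo `m`, larger than `bound y d` and at most `bound x d`. -/
theorem result : ∃ δ : ℝ, 0 < δ ∧ δ ≤ 1 ∧ (δ = 1 ↔ ∀ n : ℕ, 1 ≤ n → ∃ k, T^[k] n = 1) ∧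
    HasDensity (fun n => ∃ k, T^[k] n = 1) δ ∧
    (∀ (D K m : ℕ), 1 ≤ m → ∀ Λ : Fin (D + 1) → ℤ, Λ ≠ 0 → ∀ v : Fin K → Fin (D + 1) → ℤ,
      (∀ l, ∑ j, Λ j * v l j ≠ 0) → ∀ (a : ℤ) (x ε : ℝ), 0 < ε → ∃ X₀ : ℕ, ∀ X : ℕ, X₀ ≤ X →
      ∀ E : Fin K → Set (Fin (D + 1) → ℤ), (∀ l w, w + v l ∈ E l ↔ w ∈ E l) →
      ∀ (c : ℤ) (M N : ℕ), M ≤ N → N ≤ X → ∀ P P' : Fin (D + 1) → ℤ, (∀ j, P' j - P j ≤ X) →
        |(Points Λ c M N P P' E (Level m a x) : ℝ) - δ * Phi x / m * Points Λ c M N P P' E Set.univ| ≤
          ε * X ^ (D + 1)) ∧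
    (∀ (s m : ℕ), 1 ≤ m → ∀ κ : Fin (s + 1) → ℤ, (∀ j, κ j ≠ 0) → ∀ (a : ℤ) (x ε : ℝ), 0 < ε →
      ∃ N₀ : ℕ, ∀ N : ℕ, N₀ ≤ N → ∀ H : Fin (s + 1) → Set (Fin (s + 1) → ℤ),
      (∀ j v w, (∀ i, i ≠ j → v i = w i) → (v ∈ H j ↔ w ∈ H j)) → ∀ c : ℤ, |c| ≤ N →
        |({v : Fin (s + 1) → ℤ | (∀ j, 1 ≤ v j ∧ v j ≤ N) ∧ (∀ j, v ∈ H j) ∧
            (∑ j, κ j * v j + c) ∈ Level m a x}.ncard : ℝ) - δ * Phi x / m *
          {v : Fin (s + 1) → ℤ | (∀ j, 1 ≤ v j ∧ v j ≤ N) ∧ (∀ j, v ∈ H j) ∧
            0 < ∑ j, κ j * v j + c}.ncard| ≤ ε * N ^ (s + 1)) ∧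
    (∀ (e q m : ℕ), 1 ≤ m → ∀ (F : Fin (q + 1) → Fin e → ℤ) (a : ℤ) (x y : ℝ), y < x →
      ∀ α : ℝ, 0 < α → ∃ c : ℝ, 0 < c ∧ ∃ N₀ : ℕ, ∀ N : ℕ, N₀ ≤ N → ∀ A : Finset (Fin e → ℤ),
      (∀ u ∈ A, ∀ j, 1 ≤ u j ∧ u j ≤ N) → α * N ^ e ≤ A.card →
        c * N ^ (e + 1) ≤ ({p : (Fin e → ℤ) × ℤ | 1 ≤ p.2 ∧ p.2 ≤ N ∧ (∀ b, p.1 + p.2 • F b ∈ A) ∧
          p.2 ∈ Level m a x \ Level m a y}.ncard : ℝ)) := by
  obtain ⟨δ, h0, h1, h2, h3, h4⟩ := Pool.Agent.W36.JL.lawE
  have hPhi : ∀ x, Pool.Agent.H499R2.ND.Phi x = Phi x := fun x => Pool.Agent.H499R2.ND.phi_cdf x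
  refine ⟨δ, h0, h1, h2, h3, ?_, ?_, ?_⟩
  · intro D K m hm Λ hΛ v hv a x ε hε
    obtain ⟨X0, h⟩ := Pool.Agent.J4.H12.IE.count_inv hm h0 h1 (fun a x => h4 m a hm x) hΛ v hv a x hε
    refine ⟨X0, fun X hX E hE c M N hM hN P P' hP => ?_⟩
    have h5 := h X hX E hE c M N hM hN P P' hP
    rw [hPhi] at h5
    exact h5
  · intro s m hm κ hκ a x ε hε
    obtain ⟨N0, h⟩ := Pool.Agent.J4.H12.IE.cliques hm h0 h1 (fun a x => h4 m a hm x) hκ a x hε
    refine ⟨N0, fun N hN H hH c hc => ?_⟩
    have h5 := h N hN H hH c hc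
    rw [hPhi] at h5
    exact h5
  · intro e q m hm F a x y hxy α hα
    obtain ⟨c, hc, N0, h⟩ := Pool.Agent.J4.H12.IE.szem hm h0 h1 (fun a x => h4 m a hm x) F a hxy hα
    refine ⟨c, hc, N0, fun N hN A hA hAc => ?_⟩
    exact h N hN A (fun u hu => Pool.Agent.J4.H12.IE.mem_cube.2 fun j => by
      have := hA u hu j
      omega) hAc

end Pool.Agent.Results.MP_a1568a_nt.StructuredIndependence
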