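import Pool.Agent.R482.ST.Poly
import Pool.Agent.N481.MV.Two
import Pool.Agent.Results.MP_a1568a_nt.PowerSavingLaw
import Pool.Agent.Results.MP_a1568a_nt.DescentRates

/-!
# The `3x+1` map in logarithmic time near the powers and orbits of almost every number

Let `f_k`, `k = 0, 1, 2, …`, be positive functions on `(a, ∞)`, `a ≥ 0`, such that `f_k(t) / t` is nondecreasing, and such
that the sequence `f_k(t)` has exponent of convergence at most `τ` for each `t > a`: for instance `f_k(t) = t ^ (v_k)` for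
exponents `v_k ≥ 1` (`τ = 0`), the orbits `f_k(t) = g (g (⋯ g (t)))` of any map `g` with `g(t) > t` and `g(t) / t`
nondecreasing (`τ = 0`), and `f_k(t) = v_k t` (for `v_k = 10 ^ k`: the integer parts are the decimal digits of `t`; `τ = 0`).

* For all `α > a` outside a set of Hausdorff dimension at most `(1 - min v (c δ) + τ) / (1 - θ)` and all large `k` the
  trajectory of EVERY integer `n ≥ 1` with `|n - f_k(α)| ≤ κ f_k(α) ^ θ` follows the law of the random walk: it reaches a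
  value `≤ n ^ δ` in at most `(1 + ε) (2 / log (4/3)) log n` steps, and until then `log T^j n` is
  `log n - (j/2) log (4/3)` up to `ε log n`, and `T^j n ≤ n ^ (1 + v)`; `c > 0` depends on `ε` only.
* For `B > 2 / log (4/3)` and all `α > a` outside a set of dimension at most `(1 - min 1 (c(B) δ) + τ) / (1 - θ)`, where
  `c(B) > 1 - H(p)` with `p = (log 2 - 1/B) / log 3` (and `c(B) > 1 - H(log_3 2) = 0.05…` for large `B`), for all large `k` the
  conjectured inequality `σ(n) ≤ B log n` is inherited by EVERY such integer `n` from the integers `≤ n ^ δ`: `n` reaches some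
  `u ≤ n ^ δ` in at most `B log (n / u)` steps.
* For all `ε > 0` and `A` there is `D` such that for almost all `α > 1` and all large `k` the trajectory of EVERY integer
  `n` with `|n - α ^ k| ≤ k ^ A` follows the law of the random walk down to `k ^ D`, a power of `log n`.

Proof: the exceptional sets of the starting theorems `PowerSavingLaw` and `DescentRates` and the covering arguments for
starshaped functions (`Pool.Agent.R482.ST.windows`, `Pool.Agent.R482.ST.pow_poly`).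
-/

set_option autoImplicit false

namespace Pool.Agent.Results.MP_a1568a_nt.TimesNearPowers

open MeasureTheory Filter Topology
open Pool.Agent.Results.MP_a1568a_nt.PowerSavingLaw (T Regular T_eq)

/-- `n` reaches some `T^m(n) ≤ y` after `m ≤ B log (n / T^m(n))` steps -/
def Descends (B y : ℝ) (n : ℕ) : Prop :=
  ∃ m : ℕ, ((T^[m] n : ℕ) : ℝ) ≤ y ∧ (m : ℝ) ≤ B * Real.log ((n : ℝ) / (T^[m] n : ℕ))

/-- `n` reaches `1` after at most `B log n` steps -/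
def Fast (B : ℝ) (n : ℕ) : Prop := ∃ k : ℕ, (k : ℝ) ≤ B * Real.log n ∧ T^[k] n = 1

/-- the functions `f n` are positive on `(a, ∞)`, `a ≥ 0`, and `f n x / x` is nondecreasing there -/
def Starshaped (a : ℝ) (f : ℕ → ℝ → ℝ) : Prop :=
  0 ≤ a ∧ ∀ n : ℕ, ∀ x y : ℝ, a < x → x ≤ y → 0 < f n x ∧ f n x / x ≤ f n y / y

/-- for each `x > a` the exponent of convergence of the sequence `f n x` is at most `τ` -/
def ExpLe (a : ℝ) (f : ℕ → ℝ → ℝ) (τ : ℝ) : Prop :=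
  ∀ x : ℝ, a < x → ∀ t : ℝ, τ < t → Summable (fun n : ℕ => (f n x) ^ (-t))

lemma iter_pos {n : ℕ} (hn : 1 ≤ n) (m : ℕ) : 0 < T^[m] n := by
  rw [T_eq]; exact Pool.Agent.H377R2.iter_pos hn m

lemma regular_mono {ε y y' V V' : ℝ} {n : ℕ} (hy : y ≤ y') (hV : V ≤ V') (h : Regular ε y V n) :
    Regular ε y' V' n := by
  obtain ⟨m, h1, h2, h3⟩ := h
  exact ⟨m, h1.trans hy, h2, fun j hj => ⟨(h3 j hj).1, (h3 j hj).2.trans hV⟩⟩

lemma desc_mono {B y y' : ℝ} {n : ℕ} (hy : y ≤ y') (h : Descends B y n) : Descends B y' n := by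
  obtain ⟨m, h1, h2⟩ := h
  exact ⟨m, h1.trans hy, h2⟩

lemma fast_of {B y : ℝ} {n : ℕ} (hn : 1 ≤ n) (h : Descends B y n)
    (hu : ∀ u : ℕ, 1 ≤ u → (u : ℝ) ≤ y → Fast B u) : Fast B n := by
  obtain ⟨m, b1, b2⟩ := h
  obtain ⟨k, c1, c2⟩ := hu (T^[m] n) (iter_pos hn m) b1
  refine ⟨k + m, ?_, ?_⟩
  · have d1 : (0 : ℝ) < n := by exact_mod_cast hn
    have d2 : (0 : ℝ) < (T^[m] n : ℕ) := by exact_mod_cast iter_pos hn m
    rw [Real.log_div d1.ne' d2.ne'] at b2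
    push_cast
    linarith
  · rw [Function.iterate_add_apply]; exact c2

lemma fin_le (P : ℕ → Prop) (X : ℝ) : {n : ℕ | P n ∧ (n : ℝ) ≤ X}.Finite := by
  apply (Set.finite_Iic ⌊X⌋₊).subset
  rintro n ⟨-, h⟩
  exact Nat.le_floor h

/-- the number of the `n ≤ X` whose trajectory does not follow the law down to `y` and below `2 n y ^ c` -/
lemma count_level {ε c C : ℝ} (hc : 0 < c) (hC : 0 < C)
    (law : ∀ x y V : ℝ, 2 ≤ x → 1 ≤ y → x ≤ V →
      ({n : ℕ | 1 ≤ n ∧ (n : ℝ) ≤ x ∧ ¬ Regular ε y V n}.ncard : ℝ) ≤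
        C * (Real.log x) ^ 4 * (x / y ^ c + x ^ 2 / V)) (y : ℝ) (hy : 1 ≤ y) (X : ℝ) (hX : 1 ≤ X) :
    ({n : ℕ | (1 ≤ n ∧ ¬ Regular ε y (2 * n * y ^ c) n) ∧ (n : ℝ) ≤ X}.ncard : ℝ) ≤
      (8 * C * y ^ (-c)) * (X * (1 + Real.log X) ^ (4 : ℝ)) := by
  have hyc : 1 ≤ y ^ c := Real.one_le_rpow hy hc.le
  have hyc0 : 0 < y ^ c := by linarith
  have hlX : 0 ≤ Real.log X := Real.log_nonneg hX
  have hl2 : Real.log 2 ≤ 1 := by linarith [Real.log_two_lt_d9]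
  obtain ⟨J, hJ1, hJ2⟩ : ∃ J : ℕ, (2 : ℝ) ^ J ≤ X ∧ X < 2 ^ (J + 1) := by
    obtain ⟨J, h1, h2⟩ := exists_nat_pow_near hX (by norm_num : (1 : ℝ) < 2)
    exact ⟨J, h1, h2⟩
  -- the blocks
  have hsub : {n : ℕ | (1 ≤ n ∧ ¬ Regular ε y (2 * n * y ^ c) n) ∧ (n : ℝ) ≤ X} ⊆
      ⋃ j ∈ Finset.range (J + 1),
        {n : ℕ | 1 ≤ n ∧ (n : ℝ) ≤ 2 ^ (j + 1) ∧ ¬ Regular ε y ((2 : ℝ) ^ (j + 1) * y ^ c) n} := by
    rintro n ⟨⟨h1, h2⟩, h3⟩
    have hn1 : (1 : ℝ) ≤ n := by exact_mod_cast h1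
    obtain ⟨j, j1, j2⟩ := exists_nat_pow_near hn1 (by norm_num : (1 : ℝ) < 2)
    rw [Set.mem_iUnion₂]
    refine ⟨j, ?_, h1, j2.le, fun h => h2 (regular_mono le_rfl ?_ h)⟩
    · rw [Finset.mem_range]
      by_contra hcon
      push Not at hcon
      have : (2 : ℝ) ^ (J + 1) ≤ 2 ^ j := pow_le_pow_right₀ (by norm_num) hcon
      linarith
    · apply mul_le_mul_of_nonneg_right _ hyc0.le
      rw [pow_succ]; linarith
  have hfinj : ∀ j : ℕ, {n : ℕ | 1 ≤ n ∧ (n : ℝ) ≤ 2 ^ (j + 1) ∧ ¬ Regular ε y ((2 : ℝ) ^ (j + 1) * y ^ c) n}.Finite := by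
    intro j
    apply (Set.finite_Iic ⌊(2 : ℝ) ^ (j + 1)⌋₊).subset
    rintro n ⟨-, h, -⟩
    exact Nat.le_floor h
  have hblock : ∀ j ∈ Finset.range (J + 1),
      ({n : ℕ | 1 ≤ n ∧ (n : ℝ) ≤ 2 ^ (j + 1) ∧ ¬ Regular ε y ((2 : ℝ) ^ (j + 1) * y ^ c) n}.ncard : ℝ) ≤
        2 * C * y ^ (-c) * (1 + Real.log X) ^ 4 * 2 ^ (j + 1) := by
    intro j hj
    rw [Finset.mem_range] at hj
    have hx2 : (2 : ℝ) ≤ 2 ^ (j + 1) := by
      calc (2 : ℝ) = 2 ^ 1 := by norm_num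
        _ ≤ 2 ^ (j + 1) := pow_le_pow_right₀ (by norm_num) (by omega)
    have hx0 : (0 : ℝ) < 2 ^ (j + 1) := by positivity
    have h1 := law (2 ^ (j + 1)) y ((2 : ℝ) ^ (j + 1) * y ^ c) hx2 hy (by nlinarith)
    refine h1.trans ?_
    have h2 : ((2 : ℝ) ^ (j + 1)) ^ 2 / ((2 : ℝ) ^ (j + 1) * y ^ c) = 2 ^ (j + 1) / y ^ c := by
      rw [pow_two, mul_div_mul_left _ _ hx0.ne']
    rw [h2]
    have h3 : Real.log ((2 : ℝ) ^ (j + 1)) ≤ 1 + Real.log X := by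
      have h4 : (2 : ℝ) ^ (j + 1) ≤ 2 * X := by
        rw [pow_succ]
        have : (2 : ℝ) ^ j ≤ 2 ^ J := pow_le_pow_right₀ (by norm_num) (by omega)
        linarith
      have h5 := Real.log_le_log hx0 h4
      rw [Real.log_mul (by norm_num) (by linarith)] at h5
      linarith
    have h4 : 0 ≤ Real.log ((2 : ℝ) ^ (j + 1)) := Real.log_nonneg (by linarith)
    have h5 : Real.log ((2 : ℝ) ^ (j + 1)) ^ 4 ≤ (1 + Real.log X) ^ 4 := pow_le_pow_left₀ h4 h3 4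
    rw [Real.rpow_neg (by linarith)]
    calc C * Real.log ((2 : ℝ) ^ (j + 1)) ^ 4 * (2 ^ (j + 1) / y ^ c + 2 ^ (j + 1) / y ^ c)
        ≤ C * (1 + Real.log X) ^ 4 * (2 ^ (j + 1) / y ^ c + 2 ^ (j + 1) / y ^ c) := by
          apply mul_le_mul_of_nonneg_right (mul_le_mul_of_nonneg_left h5 hC.le) (by positivity)
      _ = 2 * C * (y ^ c)⁻¹ * (1 + Real.log X) ^ 4 * 2 ^ (j + 1) := by
          rw [div_eq_mul_inv]; ring
  have hcard : ({n : ℕ | (1 ≤ n ∧ ¬ Regular ε y (2 * n * y ^ c) n) ∧ (n : ℝ) ≤ X}.ncard : ℝ) ≤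
      ∑ j ∈ Finset.range (J + 1),
        ({n : ℕ | 1 ≤ n ∧ (n : ℝ) ≤ 2 ^ (j + 1) ∧ ¬ Regular ε y ((2 : ℝ) ^ (j + 1) * y ^ c) n}.ncard : ℝ) := by
    have h1 := Set.ncard_le_ncard hsub (Set.Finite.biUnion (Finset.finite_toSet _) fun j _ => hfinj j)
    have h2 := Finset.set_ncard_biUnion_le (Finset.range (J + 1))
      (fun j => {n : ℕ | 1 ≤ n ∧ (n : ℝ) ≤ 2 ^ (j + 1) ∧ ¬ Regular ε y ((2 : ℝ) ^ (j + 1) * y ^ c) n})
    exact_mod_cast h1.trans h2
  have hgeom : ∑ j ∈ Finset.range (J + 1), (2 : ℝ) ^ (j + 1) ≤ 4 * X := by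
    have h1 : ∀ K : ℕ, ∑ j ∈ Finset.range K, (2 : ℝ) ^ (j + 1) = 2 ^ (K + 1) - 2 := by
      intro K
      induction K with
      | zero => norm_num
      | succ K ih => rw [Finset.sum_range_succ, ih]; ring
    rw [h1, show J + 1 + 1 = J + 2 from rfl, pow_add]
    linarith
  refine hcard.trans ((Finset.sum_le_sum hblock).trans ?_)
  rw [← Finset.mul_sum]
  have e4 : (1 + Real.log X) ^ (4 : ℝ) = (1 + Real.log X) ^ 4 := by
    rw [← Real.rpow_natCast]; norm_num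
  rw [e4]
  have hyn : 0 < y ^ (-c) := Real.rpow_pos_of_pos (by linarith) _
  calc 2 * C * y ^ (-c) * (1 + Real.log X) ^ 4 * ∑ j ∈ Finset.range (J + 1), (2 : ℝ) ^ (j + 1)
      ≤ 2 * C * y ^ (-c) * (1 + Real.log X) ^ 4 * (4 * X) := mul_le_mul_of_nonneg_left hgeom (by positivity)
    _ = 8 * C * y ^ (-c) * (X * (1 + Real.log X) ^ 4) := by ring

/-- the power version at the levels `y k` -/
theorem pow_levels (ε : ℝ) (hε : 0 < ε) : ∃ c : ℝ, 0 < c ∧ ∀ y L v : ℕ → ℝ, (∀ n, 1 ≤ y n) → (∀ n, 0 ≤ L n) →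
    (∀ n, 1 ≤ v n) → (∀ s : ℝ, 1 < s → ∀ᶠ n in atTop, L n ≤ s ^ (v n)) →
    (Summable fun n => L n * (y n) ^ (-c) * (v n) ^ 5) →
    ∃ N : Set ℝ, volume N = 0 ∧ ∀ α : ℝ, 1 < α → α ∉ N → ∃ k₀ : ℕ, ∀ k : ℕ, k₀ ≤ k →
      ∀ n : ℕ, 1 ≤ n → |(n : ℝ) - α ^ (v k)| ≤ L k → Regular ε (y k) (2 * n * (y k) ^ c) n := by
  obtain ⟨c, C, hc, hC, law⟩ := PowerSavingLaw.result ε hε
  refine ⟨c, hc, fun y L v hy hL hv hLv hsum => ?_⟩
  obtain ⟨N, hN, hw⟩ := Pool.Agent.R482.ST.pow_poly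
    (fun k => {n : ℕ | 1 ≤ n ∧ ¬ Regular ε (y k) (2 * n * (y k) ^ c) n}) (fun n : ℕ => (n : ℝ)) hv
    (q := 4) (by norm_num) (C := fun k => 8 * C * (y k) ^ (-c))
    (fun k => by
      have : 0 < (y k) ^ (-c) := Real.rpow_pos_of_pos (by linarith [hy k]) _
      positivity) hL hLv (by
      refine (hsum.mul_left (8 * C)).congr fun k => ?_
      have : ((4 : ℝ) + 1) = ((5 : ℕ) : ℝ) := by norm_num
      rw [this, Real.rpow_natCast]
      ring) (fun k X hX => ⟨fin_le _ X, count_level hc hC law (y k) (hy k) X hX⟩)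
  refine ⟨N, hN, fun α hα hαN => ?_⟩
  obtain ⟨k₀, hk⟩ := hw α hα hαN
  refine ⟨k₀, fun k hk1 n hn hnw => ?_⟩
  by_contra hcon
  exact absurd (hk k hk1 n ⟨hn, hcon⟩) (not_lt.2 hnw)

/-- **The `3x+1` map near the values of starshaped functions.** -/
theorem result :
    (∀ ε : ℝ, 0 < ε → ∃ c : ℝ, 0 < c ∧
      ∀ (a : ℝ) (f : ℕ → ℝ → ℝ) (τ v δ θ : ℝ), Starshaped a f → 0 ≤ τ → ExpLe a f τ → 0 < v → v ≤ 1 → 0 < δ → θ < 1 →
        ∃ E : Set ℝ, dimH E ≤ ENNReal.ofReal ((1 - min v (c * δ) + τ) / (1 - θ)) ∧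
          ∀ α : ℝ, a < α → α ∉ E → ∀ κ : ℝ, ∃ k₀ : ℕ, ∀ k : ℕ, k₀ ≤ k → ∀ n : ℕ, 1 ≤ n →
            |(n : ℝ) - f k α| ≤ κ * (f k α) ^ θ → Regular ε ((n : ℝ) ^ δ) ((n : ℝ) ^ (1 + v)) n) ∧
    (∃ (c : ℝ → ℝ) (B₁ : ℝ), (∀ B : ℝ, B₁ ≤ B → 1 - DescentRates.H (Real.log 2 / Real.log 3) < c B) ∧
      ∀ B : ℝ, 2 / Real.log (4 / 3) < B → 1 - DescentRates.H ((Real.log 2 - 1 / B) / Real.log 3) < c B ∧
        ∀ (a : ℝ) (f : ℕ → ℝ → ℝ) (τ δ θ : ℝ), Starshaped a f → 0 ≤ τ → ExpLe a f τ → 0 < δ → θ < 1 →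
          ∃ E : Set ℝ, dimH E ≤ ENNReal.ofReal ((1 - min 1 (c B * δ) + τ) / (1 - θ)) ∧
            ∀ α : ℝ, a < α → α ∉ E → ∀ κ : ℝ, ∃ k₀ : ℕ, ∀ k : ℕ, k₀ ≤ k → ∀ n : ℕ, 1 ≤ n →
              |(n : ℝ) - f k α| ≤ κ * (f k α) ^ θ → Descends B ((n : ℝ) ^ δ) n ∧
                ((∀ u : ℕ, 1 ≤ u → (u : ℝ) ≤ (n : ℝ) ^ δ → Fast B u) → Fast B n)) ∧
    (∀ ε : ℝ, 0 < ε → ∀ A : ℕ, ∃ D : ℕ, ∃ N : Set ℝ, volume N = 0 ∧ ∀ α : ℝ, 1 < α → α ∉ N →
      ∃ k₀ : ℕ, ∀ k : ℕ, k₀ ≤ k → ∀ n : ℕ, |(n : ℝ) - α ^ k| ≤ (k : ℝ) ^ A →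
        Regular ε ((k : ℝ) ^ D) (n * (k : ℝ) ^ D) n) ∧
    (∀ (v : ℕ → ℝ) (τ : ℝ), (∀ n, 0 < v n) → (∀ t : ℝ, τ < t → Summable (fun n : ℕ => (v n) ^ (-t))) →
      Starshaped 0 (fun n x => v n * x) ∧ ExpLe 0 (fun n x => v n * x) τ) ∧
    (∀ v : ℕ → ℝ, (∀ n, 1 ≤ v n) → (∀ t : ℝ, 0 < t → Summable fun n : ℕ => Real.exp (-(t * v n))) →
      Starshaped 1 (fun n x => x ^ (v n)) ∧ ExpLe 1 (fun n x => x ^ (v n)) 0) ∧
    (∀ (a : ℝ) (g : ℝ → ℝ), 0 ≤ a → (∀ x y : ℝ, a < x → x ≤ y → g x / x ≤ g y / y) → (∀ x : ℝ, a < x → x < g x) →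
      Starshaped a (fun n x => g^[n] x) ∧ ExpLe a (fun n x => g^[n] x) 0) := by
  refine ⟨fun ε hε => ?_, ?_, fun ε hε A => ?_, Pool.Agent.R482.ST.ex_mul, Pool.Agent.R482.ST.ex_pow,
    Pool.Agent.R482.ST.ex_orbit⟩
  · obtain ⟨c, C, hc, hC, law⟩ := PowerSavingLaw.result ε hε
    refine ⟨c, hc, fun a f τ v δ θ hf hτ hE hv hv1 hδ hθ => ?_⟩
    obtain ⟨E, hE1, hE2⟩ := Pool.Agent.R482.ST.windows
      {n : ℕ | 1 ≤ n ∧ ¬ Regular ε ((n : ℝ) ^ δ) ((n : ℝ) ^ (1 + v)) n} (fun n : ℕ => (n : ℝ)) hf hτ hE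
      (s := 1 - min v (c * δ)) (by linarith [min_le_left v (c * δ)]) hθ
      (Pool.Agent.N481.MV.two_scale (Bad := fun y V n => ¬ Regular ε y V n) hv hv1 hδ hC.le
        (fun y y' V V' n hy hV h h' => h (regular_mono hy hV h'))
        (fun x y V hx hy hV => by rw [add_comm (x ^ 2 / V)]; exact law x y V hx hy hV))
    refine ⟨E, hE1, fun α hα hαE κ => ?_⟩
    obtain ⟨k₀, hk⟩ := hE2 α hα hαE κ
    refine ⟨k₀, fun k hk1 n hn hw => ?_⟩
    by_contra hcon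
    exact absurd (hk k hk1 n ⟨hn, hcon⟩) (not_lt.2 hw)
  · obtain ⟨c, B₁, h1, h2⟩ := DescentRates.result
    refine ⟨c, B₁, h1, fun B hB => ?_⟩
    obtain ⟨h3, C, hC, law⟩ := h2 B hB
    refine ⟨h3, fun a f τ δ θ hf hτ hE hδ hθ => ?_⟩
    obtain ⟨E, hE1, hE2⟩ := Pool.Agent.R482.ST.windows
      {n : ℕ | 1 ≤ n ∧ ¬ Descends B ((n : ℝ) ^ δ) n} (fun n : ℕ => (n : ℝ)) hf hτ hE
      (s := 1 - min 1 (c B * δ)) (by linarith [min_le_left 1 (c B * δ)]) hθ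
      (Pool.Agent.N481.MV.two_scale (Bad := fun y _ n => ¬ Descends B y n) (c := c B) (v := 1) (p := 3)
          one_pos le_rfl hδ hC.le
          (fun y y' V V' n hy hV h h' => h (desc_mono hy h'))
          (fun x y V hx hy hV => by
            have h1 : (0 : ℝ) ≤ x ^ 2 / V := div_nonneg (by positivity) (by linarith)
            have h2 : 0 ≤ C * Real.log x ^ 3 := by
              have := Real.log_nonneg (show (1 : ℝ) ≤ x by linarith)
              positivity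
            exact (law x y hx hy).trans (mul_le_mul_of_nonneg_left (by linarith) h2)))
    refine ⟨E, hE1, fun α hα hαE κ => ?_⟩
    obtain ⟨k₀, hk⟩ := hE2 α hα hαE κ
    refine ⟨k₀, fun k hk1 n hn hw => ?_⟩
    have h4 : Descends B ((n : ℝ) ^ δ) n := by
      by_contra hcon
      exact absurd (hk k hk1 n ⟨hn, hcon⟩) (not_lt.2 hw)
    exact ⟨h4, fast_of hn h4⟩
  · obtain ⟨c, hc, hp⟩ := pow_levels ε hε
    obtain ⟨D, hD⟩ := exists_nat_ge ((A + 7 : ℝ) / c)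
    have hDc : (A + 7 : ℝ) ≤ D * c := by
      rw [div_le_iff₀ hc] at hD
      exact hD
    obtain ⟨D₂, hD₂⟩ := exists_nat_ge ((D : ℝ) * c + 1)
    have hv1 : ∀ n : ℕ, (1 : ℝ) ≤ max 1 (n : ℝ) := fun n => le_max_left _ _
    obtain ⟨N, hN, hw⟩ := hp (fun n => (max 1 (n : ℝ)) ^ D) (fun n => (max 1 (n : ℝ)) ^ A) (fun n => max 1 (n : ℝ))
      (fun n => one_le_pow₀ (hv1 n)) (fun n => by have := hv1 n; positivity) hv1 (by
        intro s hs
        have hx0 : 0 < Real.log s := Real.log_pos hs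
        have h2 := tendsto_exp_mul_div_rpow_atTop (A : ℝ) (Real.log s) hx0
        have h3 := ((h2.comp (tendsto_natCast_atTop_atTop (R := ℝ))).eventually (eventually_ge_atTop 1)).and
          (eventually_ge_atTop 1)
        filter_upwards [h3] with n hn
        obtain ⟨hn1, hn2⟩ := hn
        have hn2' : (1 : ℝ) ≤ n := by exact_mod_cast hn2
        have hn1 : 1 ≤ Real.exp (Real.log s * n) / (n : ℝ) ^ (A : ℝ) := hn1
        rw [Real.rpow_natCast, le_div_iff₀ (by positivity), one_mul] at hn1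
        rw [max_eq_right hn2', Real.rpow_def_of_pos (by linarith)]
        exact hn1) (by
        have hs2 : Summable fun n : ℕ => 1 / (max 1 (n : ℝ)) ^ 2 := by
          have h0 : Summable fun n : ℕ => 1 / (n : ℝ) ^ 2 := Real.summable_one_div_nat_pow.2 (by norm_num)
          rw [← summable_nat_add_iff 1] at h0 ⊢
          refine h0.congr fun n => ?_
          rw [max_eq_right]
          push_cast
          have : (0 : ℝ) ≤ n := Nat.cast_nonneg n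
          linarith
        refine Summable.of_nonneg_of_le (fun n => ?_) (fun n => ?_) hs2
        · have := hv1 n
          positivity
        · have h1 := hv1 n
          have h0 : 0 < max 1 (n : ℝ) := by linarith
          show (max 1 (n : ℝ)) ^ A * ((max 1 (n : ℝ)) ^ D) ^ (-c) * (max 1 (n : ℝ)) ^ 5 ≤
            1 / (max 1 (n : ℝ)) ^ 2
          rw [one_div, ← Real.rpow_natCast, ← Real.rpow_natCast, ← Real.rpow_natCast, ← Real.rpow_natCast,
            ← Real.rpow_mul h0.le, ← Real.rpow_neg h0.le, ← Real.rpow_add h0, ← Real.rpow_add h0]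
          apply Real.rpow_le_rpow_of_exponent_le h1
          push_cast
          linarith)
    refine ⟨max D D₂, N, hN, fun α hα hαN => ?_⟩
    obtain ⟨k₀, hk⟩ := hw α hα hαN
    -- the integers near a large power are positive
    have hpos : ∀ᶠ k : ℕ in atTop, (k : ℝ) ^ A < α ^ k := by
      have h3 := tendsto_pow_const_div_const_pow_of_one_lt A hα
      filter_upwards [h3.eventually (gt_mem_nhds one_pos)] with k hk
      rwa [div_lt_one (by positivity)] at hk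
    obtain ⟨k₁, hk₁⟩ := eventually_atTop.1 hpos
    refine ⟨max (max k₀ k₁) 2, fun k hk1 n hnw => ?_⟩
    have hk1' : (2 : ℝ) ≤ k := by
      have : 2 ≤ k := le_trans (le_max_right _ _) hk1
      exact_mod_cast this
    have hn1 : 1 ≤ n := by
      rcases Nat.eq_zero_or_pos n with h0 | h0
      · exfalso
        rw [h0, Nat.cast_zero, zero_sub, abs_neg, abs_of_pos (by positivity)] at hnw
        have := hk₁ k (le_trans (le_trans (le_max_right _ _) (le_max_left _ _)) hk1)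
        linarith
      · exact h0
    have h5 := hk k (le_trans (le_trans (le_max_left _ _) (le_max_left _ _)) hk1) n hn1
    rw [max_eq_right (by linarith : (1 : ℝ) ≤ k), Real.rpow_natCast] at h5
    refine regular_mono ?_ ?_ (h5 hnw)
    · exact pow_le_pow_right₀ (by linarith) (le_max_left _ _)
    · have hn0 : (0 : ℝ) ≤ n := Nat.cast_nonneg n
      have e1 : 2 * (n : ℝ) * ((k : ℝ) ^ D) ^ c = n * (2 * ((k : ℝ) ^ D) ^ c) := by ring
      rw [e1]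
      apply mul_le_mul_of_nonneg_left _ hn0
      rw [← Real.rpow_natCast, ← Real.rpow_natCast, ← Real.rpow_mul (by linarith)]
      calc 2 * (k : ℝ) ^ ((D : ℝ) * c) ≤ k * (k : ℝ) ^ ((D : ℝ) * c) :=
            mul_le_mul_of_nonneg_right hk1' (Real.rpow_nonneg (by linarith) _)
        _ = (k : ℝ) ^ ((D : ℝ) * c + 1) := by
            rw [Real.rpow_add_one (by linarith)]; ring
        _ ≤ (k : ℝ) ^ (((max D D₂ : ℕ)) : ℝ) := by
            apply Real.rpow_le_rpow_of_exponent_le (by linarith)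
            refine hD₂.trans ?_
            exact_mod_cast le_max_right D D₂

end Pool.Agent.Results.MP_a1568a_nt.TimesNearPowers
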