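import Pool.Agent.N918.MS.Cnt
import Pool.Agent.J4.H57.RS.Pow
import Pool.Agent.Results.MP_a1568a_nt.TimesNearPowers

/-!
# The `3x+1` map along random and metric sequences, of any dependence

Say that the integer `k` is good for `(ε, δ)` if, in case `k > 0`, the trajectory of `k` under the `3x+1` function `T` reaches a
value `≤ exp ((log k) ^ δ)` in at most `(1 + ε) (2 / log (4/3)) log k` steps, and until then `log T^j k` is
`log k - (j/2) log (4/3)` up to `ε log k` and `T^j k ≤ k exp ((log k) ^ δ)`; and hence, if all `u ≤ exp ((log k) ^ δ)` reach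
`1` in at most `B log u` steps, then `k` reaches `1` in at most `(1 + ε) (2 / log (4/3)) log k + B (log k) ^ δ` steps.
For ALL positive rational `ε`, `δ` at once, outside of ONE event (set) of probability (measure) zero,

* for random integers `X_n`, of ANY dependence, with `P (X_n = k) ≤ C / (|k| + 1)`, almost surely all but finitely many `X_n`
  are good, if `|X_n| ≥ exp (n ^ η)` outside of events with a convergent sum of probabilities; all but `M / (log M) ^ U` of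
  the `X_n`, `n < M`, are good for all `U`, if `∑_{n < M} P (|X_n| < M ^ η) ≤ C M ^ (1 - η)`;
* for all linear forms `a_n` in `d` variables with norms at least `exp (n ^ η)`, for almost all vectors `α`, all but finitely
  many `⌊a_n (α)⌋` are good; the same for `⌊h_n (x)⌋`, for almost all `x` in an interval on which `|h_n'| ≥ c |h_n|` and
  `|h_n| ≥ exp (n ^ η)`; the same for `⌊ξ x ^ n⌋`, for all `ξ ≠ 0` and almost all `x > 1`;
* for ANY sequence of real numbers `a_n` with mutual distances at least `η > 0`, in any order, and almost all real `α` all but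
  `M / (log M) ^ U` of the `⌊a_n α⌋`, `n < M`, are good, for all `U`.

Let now `X_n` be random integers, of ANY dependence, with the much weaker bound `P (X_n = k) ≤ C k ^ (-γ)`: for instance
random elements of sets with at least `N ^ γ` elements up to `N`. Let `X_n ≥ M_n` outside of events with a convergent sum of
probabilities, and let `∑ M_n ^ (-τ)` converge. If `τ < γ - 1 + min v (c δ)`, `c = c(ε)`, then almost surely all but finitely
many `X_n` reach a value `≤ X_n ^ δ` in at most `(1 + ε) (2 / log (4/3)) log X_n` steps, along the profile and below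
`X_n ^ (1 + v)`. If `B > 2 / log (4/3)` and `τ < γ - 1 + min 1 (c(B) δ)`, where `c(B) > 1 - H(p)` with
`p = (log 2 - 1/B) / log 3`, then almost surely for all but finitely many `n` the inequality `σ(X_n) ≤ B log X_n` is inherited
from the integers `≤ X_n ^ δ`.

Proof: the exceptional sets of the starting theorem `PowerSavingLaw`, with `y = exp ((log x / 2) ^ δ)`, and of `DescentRates`,
the starting theorem `Pool.Agent.N918.MS.randomAndMetric` and `Pool.Agent.J4.H57.RS.rand_power`.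
-/

set_option autoImplicit false

namespace Pool.Agent.Results.MP_a1568a_nt.TimesAlongRandomSequences

open Filter Topology MeasureTheory
open scoped ENNReal
open Pool.Agent.N918.MS (AlmostAlways RandomAndMetric randomAndMetric)
open Pool.Agent.Results.MP_a1568a_nt.PowerSavingLaw (T Regular T_eq)
open Pool.Agent.Results.MP_a1568a_nt.TimesNearPowers (Fast Descends regular_mono desc_mono fast_of count_level iter_pos
  fin_le)

/-- pairs of positive rational numbers -/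
def Index : Type := {p : ℚ × ℚ // 0 < p.1 ∧ 0 < p.2}

instance : Countable Index := inferInstanceAs (Countable {p : ℚ × ℚ // 0 < p.1 ∧ 0 < p.2})

/-- In case `k > 0`: the trajectory of `k` reaches a value `≤ exp ((log k) ^ δ)` in at most `(1 + ε) (2 / log (4/3)) log k`
steps, along the profile of the random walk up to `ε log k` and below `k exp ((log k) ^ δ)`; and `k` reaches `1` in at most
`(1 + ε) (2 / log (4/3)) log k + B (log k) ^ δ` steps, if all `u ≤ exp ((log k) ^ δ)` reach `1` in at most `B log u` steps. -/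
def Good (p : Index) (k : ℤ) : Prop :=
  0 < k → Regular p.1.1 (Real.exp (Real.log k ^ (p.1.2 : ℝ))) (k * Real.exp (Real.log k ^ (p.1.2 : ℝ))) k.toNat ∧
    ∀ B : ℝ, 0 ≤ B → (∀ u : ℕ, 1 ≤ u → (u : ℝ) ≤ Real.exp (Real.log k ^ (p.1.2 : ℝ)) → Fast B u) →
      ∃ m : ℕ, (m : ℝ) ≤ (1 + p.1.1) * (2 / Real.log (4 / 3)) * Real.log k + B * Real.log k ^ (p.1.2 : ℝ) ∧
        T^[m] k.toNat = 1

lemma reach {ε y V B : ℝ} {n : ℕ} (hn : 1 ≤ n) (hy : 1 ≤ y) (hB : 0 ≤ B) (h : Regular ε y V n)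
    (hu : ∀ u : ℕ, 1 ≤ u → (u : ℝ) ≤ y → Fast B u) :
    ∃ m : ℕ, (m : ℝ) ≤ (1 + ε) * (2 / Real.log (4 / 3)) * Real.log n + B * Real.log y ∧ T^[m] n = 1 := by
  obtain ⟨m, h1, h2, -⟩ := h
  have hpos : 1 ≤ T^[m] n := iter_pos hn m
  obtain ⟨k, k1, k2⟩ := hu (T^[m] n) hpos h1
  refine ⟨k + m, ?_, ?_⟩
  · have h3 : Real.log (T^[m] n : ℕ) ≤ Real.log y :=
      Real.log_le_log (by exact_mod_cast hpos) h1
    have h4 := mul_le_mul_of_nonneg_left h3 hB
    push_cast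
    linarith
  · rw [Function.iterate_add_apply]; exact k2

/-- the asymptotic inequality -/
lemma asym {c δ K : ℝ} (hc : 0 < c) (hδ : 0 < δ) (hK : 0 < K) (U : ℕ) : ∀ᶠ u : ℝ in atTop,
    K * Real.exp (-(c * (u / 2) ^ δ)) * (1 + u) ^ 4 ≤ (1 / 2) * (u ^ U)⁻¹ := by
  have hb : 0 < c / 2 ^ δ := by positivity
  have h1 := tendsto_rpow_mul_exp_neg_mul_atTop_nhds_zero (((U : ℝ) + 5) / δ) (c / 2 ^ δ) hb
  have h2 := h1.comp (tendsto_rpow_atTop hδ)
  have h3 : 0 < (1 : ℝ) / (2 * K * 16) := by positivity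
  filter_upwards [h2.eventually (gt_mem_nhds h3), eventually_ge_atTop 1] with u hu hu1
  have hu0 : 0 < u := by linarith
  simp only [Function.comp] at hu
  rw [← Real.rpow_mul hu0.le, mul_div_cancel₀ _ hδ.ne'] at hu
  have e1 : -(c / 2 ^ δ) * u ^ δ = -(c * (u / 2) ^ δ) := by
    rw [Real.div_rpow hu0.le (by norm_num)]; ring
  rw [e1] at hu
  have e2 : u ^ ((U : ℝ) + 5) = u ^ U * u ^ 5 := by
    rw [Real.rpow_add hu0, Real.rpow_natCast, show (5 : ℝ) = ((5 : ℕ) : ℝ) by norm_num, Real.rpow_natCast]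
  rw [e2] at hu
  have e3 : (1 + u) ^ 4 ≤ 16 * u ^ 4 := by
    calc (1 + u) ^ 4 ≤ (2 * u) ^ 4 := pow_le_pow_left₀ (by linarith) (by linarith) 4
      _ = 16 * u ^ 4 := by ring
  have e4 : u ^ 4 ≤ u ^ 5 := pow_le_pow_right₀ hu1 (by norm_num)
  have hE : 0 < Real.exp (-(c * (u / 2) ^ δ)) := Real.exp_pos _
  have hU : 0 < u ^ U := by positivity
  rw [← div_eq_mul_inv, le_div_iff₀ hU]
  have h5 : u ^ U * u ^ 5 * Real.exp (-(c * (u / 2) ^ δ)) * (K * 16) ≤ 1 / (2 * K * 16) * (K * 16) :=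
    mul_le_mul_of_nonneg_right hu.le (by positivity)
  have h6 : 1 / (2 * K * 16) * (K * 16) = 1 / 2 := by field_simp
  rw [h6] at h5
  calc K * Real.exp (-(c * (u / 2) ^ δ)) * (1 + u) ^ 4 * u ^ U
      ≤ K * Real.exp (-(c * (u / 2) ^ δ)) * (16 * u ^ 5) * u ^ U := by
        apply mul_le_mul_of_nonneg_right _ hU.le
        apply mul_le_mul_of_nonneg_left _ (by positivity)
        linarith
    _ = u ^ U * u ^ 5 * Real.exp (-(c * (u / 2) ^ δ)) * (K * 16) := by ring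
    _ ≤ 1 / 2 := h5

lemma asym2 (U : ℕ) : ∀ᶠ X : ℝ in atTop, Real.sqrt X ≤ (1 / 2) * (X / Real.log X ^ U) := by
  have h1 : (fun x : ℝ => Real.log x ^ (U : ℝ)) =o[atTop] fun x => x ^ (1 / 2 : ℝ) :=
    isLittleO_log_rpow_rpow_atTop _ (by norm_num)
  filter_upwards [h1.bound (by norm_num : (0 : ℝ) < 1 / 2), eventually_gt_atTop 1] with X hX hX1
  have hl : 0 < Real.log X := Real.log_pos hX1
  rw [Real.norm_of_nonneg (by positivity), Real.norm_of_nonneg (by positivity), Real.rpow_natCast,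
    ← Real.sqrt_eq_rpow] at hX
  have hs : 0 < Real.sqrt X := Real.sqrt_pos.2 (by linarith)
  have e : X = Real.sqrt X * Real.sqrt X := (Real.mul_self_sqrt (by linarith)).symm
  rw [mul_div_assoc', le_div_iff₀ (by positivity)]
  calc Real.sqrt X * Real.log X ^ U ≤ Real.sqrt X * (1 / 2 * Real.sqrt X) := mul_le_mul_of_nonneg_left hX hs.le
    _ = 1 / 2 * X := by rw [show Real.sqrt X * (1 / 2 * Real.sqrt X) = 1 / 2 * (Real.sqrt X * Real.sqrt X) by ring, ← e]

lemma almost (p : Index) : AlmostAlways (Good p) := by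
  obtain ⟨⟨ε, δ⟩, hε, hδ⟩ := p
  have hε' : (0 : ℝ) < ε := by exact_mod_cast hε
  have hδ' : (0 : ℝ) < δ := by exact_mod_cast hδ
  obtain ⟨c₀, C, hc₀, hC, law₀⟩ := PowerSavingLaw.result (ε : ℝ) hε'
  set c : ℝ := min c₀ (1 / 2) with hcdef
  have hc : 0 < c := lt_min hc₀ (by norm_num)
  have hc2 : c ≤ 1 / 2 := min_le_right _ _
  have law : ∀ x y V : ℝ, 2 ≤ x → 1 ≤ y → x ≤ V →
      ({n : ℕ | 1 ≤ n ∧ (n : ℝ) ≤ x ∧ ¬ Regular ε y V n}.ncard : ℝ) ≤
        C * (Real.log x) ^ 4 * (x / y ^ c + x ^ 2 / V) := by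
    intro x y V hx hy hV
    refine (law₀ x y V hx hy hV).trans ?_
    have h1 : y ^ c ≤ y ^ c₀ := Real.rpow_le_rpow_of_exponent_le hy (min_le_left _ _)
    have h2 : 0 < y ^ c := Real.rpow_pos_of_pos (by linarith) _
    have h3 : 0 ≤ C * (Real.log x) ^ 4 := by positivity
    apply mul_le_mul_of_nonneg_left _ h3
    have h4 : x / y ^ c₀ ≤ x / y ^ c := div_le_div_of_nonneg_left (by linarith) h2 h1
    linarith
  intro U
  have hlog : Tendsto (fun X : ℕ => Real.log (X : ℝ)) atTop atTop :=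
    Real.tendsto_log_atTop.comp tendsto_natCast_atTop_atTop
  have ev1 := hlog.eventually (asym (c := c) (δ := (δ : ℝ)) (K := 8 * C) hc hδ' (by positivity) U)
  have ev2 := (tendsto_natCast_atTop_atTop (R := ℝ)).eventually (asym2 U)
  have ev3 : ∀ᶠ X : ℕ in atTop, Real.log 2 ≤ (1 - c) * (Real.log (X : ℝ) / 2) ^ (δ : ℝ) := by
    have h1 : Tendsto (fun X : ℕ => (1 - c) * (Real.log (X : ℝ) / 2) ^ (δ : ℝ)) atTop atTop := by
      apply Tendsto.const_mul_atTop (by linarith)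
      exact (tendsto_rpow_atTop hδ').comp (hlog.atTop_div_const (by norm_num))
    exact h1.eventually_ge_atTop _
  obtain ⟨X₀, hX₀⟩ := eventually_atTop.1 (((ev1.and ev2).and ev3).and (eventually_ge_atTop 2))
  refine ⟨X₀, fun X hX => ?_⟩
  obtain ⟨⟨⟨e1, e2⟩, e3⟩, e4⟩ := hX₀ X hX
  have hX2 : (2 : ℝ) ≤ X := by exact_mod_cast e4
  have hX0 : (0 : ℝ) < X := by linarith
  have hlX : 0 < Real.log (X : ℝ) := Real.log_pos (by linarith)
  set y : ℝ := Real.exp ((Real.log (X : ℝ) / 2) ^ (δ : ℝ)) with hy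
  have hy1 : 1 ≤ y := Real.one_le_exp (Real.rpow_nonneg (by linarith) _)
  have hy0 : 0 < y := by linarith
  have hyc : y ^ (-c) = Real.exp (-(c * (Real.log (X : ℝ) / 2) ^ (δ : ℝ))) := by
    rw [hy, ← Real.exp_mul]; congr 1; ring
  have h2y : 2 * y ^ c ≤ y := by
    have h1 : y ^ c * y ^ (1 - c) = y := by
      rw [← Real.rpow_add hy0]; simp
    have h2 : 2 ≤ y ^ (1 - c) := by
      have h3 : y ^ (1 - c) = Real.exp ((1 - c) * (Real.log (X : ℝ) / 2) ^ (δ : ℝ)) := by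
        rw [hy, ← Real.exp_mul]; congr 1; ring
      rw [h3]
      calc (2 : ℝ) = Real.exp (Real.log 2) := (Real.exp_log (by norm_num : (0 : ℝ) < 2)).symm
        _ ≤ _ := Real.exp_le_exp.2 e3
    have h4 : 0 < y ^ c := Real.rpow_pos_of_pos hy0 _
    nlinarith
  -- the exceptional set
  set A : Set ℕ := {n : ℕ | (1 ≤ n ∧ ¬ Regular ε y (2 * n * y ^ c) n) ∧ (n : ℝ) ≤ X} with hA
  set A' : Set ℕ := {n : ℕ | 1 ≤ n ∧ (n : ℝ) ≤ Real.sqrt X} with hA'
  have hAfin : A.Finite := fin_le _ _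
  have hA'fin : A'.Finite := fin_le _ _
  have hA'card : (A'.ncard : ℝ) ≤ Real.sqrt X := by
    have h1 : A' ⊆ ((Finset.Ioc 0 ⌊Real.sqrt X⌋₊ : Finset ℕ) : Set ℕ) := by
      rintro n ⟨h1, h2⟩
      rw [Finset.mem_coe, Finset.mem_Ioc]
      exact ⟨h1, Nat.le_floor h2⟩
    have h2 := Set.ncard_le_ncard h1 (Finset.finite_toSet _)
    rw [Set.ncard_coe_finset, Nat.card_Ioc, Nat.sub_zero] at h2
    calc (A'.ncard : ℝ) ≤ (⌊Real.sqrt X⌋₊ : ℝ) := by exact_mod_cast h2
      _ ≤ Real.sqrt X := Nat.floor_le (Real.sqrt_nonneg _)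
  have hsub : {k : ℤ | k ∈ Set.Icc (-(X : ℤ)) X ∧ ¬ Good ⟨(ε, δ), hε, hδ⟩ k} ⊆ (fun n : ℕ => (n : ℤ)) '' (A ∪ A') := by
    rintro k ⟨⟨-, hk2⟩, hk3⟩
    have hk0 : 0 < k := by
      by_contra hcon
      exact hk3 fun h => absurd h hcon
    obtain ⟨n, rfl⟩ := Int.eq_ofNat_of_zero_le hk0.le
    have hn1 : 1 ≤ n := by omega
    have hnX : (n : ℝ) ≤ X := by exact_mod_cast hk2
    refine ⟨n, ?_, rfl⟩
    by_cases hs : (n : ℝ) ≤ Real.sqrt X
    · exact Or.inr ⟨hn1, hs⟩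
    · left
      push Not at hs
      refine ⟨⟨hn1, fun hreg => hk3 fun _ => ?_⟩, hnX⟩
      have hn0 : (0 : ℝ) < n := by exact_mod_cast hn1
      have hln : Real.log (X : ℝ) / 2 ≤ Real.log n := by
        have h1 := Real.log_le_log (Real.sqrt_pos.2 hX0) hs.le
        rwa [Real.log_sqrt hX0.le] at h1
      have hyn : y ≤ Real.exp (Real.log n ^ (δ : ℝ)) :=
        Real.exp_le_exp.2 (Real.rpow_le_rpow (by linarith) hln hδ'.le)
      have hlnn : 0 ≤ Real.log (n : ℝ) := Real.log_natCast_nonneg n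
      have hR : Regular ε (Real.exp (Real.log n ^ (δ : ℝ))) (n * Real.exp (Real.log n ^ (δ : ℝ))) n := by
        refine regular_mono hyn ?_ hreg
        have e : 2 * (n : ℝ) * y ^ c = n * (2 * y ^ c) := by ring
        rw [e]
        exact mul_le_mul_of_nonneg_left (h2y.trans hyn) hn0.le
      have e5 : ((n : ℤ)).toNat = n := Int.toNat_natCast n
      have e6 : (((n : ℤ) : ℤ) : ℝ) = (n : ℝ) := by norm_cast
      show Regular (ε : ℝ) (Real.exp (Real.log (((n : ℤ) : ℤ) : ℝ) ^ (δ : ℝ)))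
        ((((n : ℤ) : ℤ) : ℝ) * Real.exp (Real.log (((n : ℤ) : ℤ) : ℝ) ^ (δ : ℝ))) ((n : ℤ)).toNat ∧ _
      rw [e5, e6]
      refine ⟨hR, fun B hB hu => ?_⟩
      have h7 := reach hn1 (Real.one_le_exp (Real.rpow_nonneg hlnn _)) hB hR (fun u hu1 hu2 => hu u hu1 (by
        first | exact hu2 | (rw [e6]; exact hu2)))
      rw [Real.log_exp] at h7
      exact h7
  have h1 := Set.ncard_le_ncard hsub ((hAfin.union hA'fin).image _)
  have h2 := (Set.ncard_image_le (f := fun n : ℕ => (n : ℤ)) (hAfin.union hA'fin)).trans (Set.ncard_union_le A A')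
  have h3 : ({k : ℤ | k ∈ Set.Icc (-(X : ℤ)) X ∧ ¬ Good ⟨(ε, δ), hε, hδ⟩ k}.ncard : ℝ) ≤ A.ncard + A'.ncard := by
    exact_mod_cast h1.trans h2
  have h4 := count_level hc hC law y hy1 X (by linarith)
  have e5 : (1 + Real.log (X : ℝ)) ^ (4 : ℝ) = (1 + Real.log (X : ℝ)) ^ 4 := by
    rw [← Real.rpow_natCast]; norm_num
  rw [e5, hyc] at h4
  have h5 : (A.ncard : ℝ) ≤ (1 / 2) * (X / Real.log (X : ℝ) ^ U) := by
    refine h4.trans ?_
    calc 8 * C * Real.exp (-(c * (Real.log (X : ℝ) / 2) ^ (δ : ℝ))) * (X * (1 + Real.log (X : ℝ)) ^ 4)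
        = X * (8 * C * Real.exp (-(c * (Real.log (X : ℝ) / 2) ^ (δ : ℝ))) * (1 + Real.log (X : ℝ)) ^ 4) := by ring
      _ ≤ X * ((1 / 2) * (Real.log (X : ℝ) ^ U)⁻¹) := mul_le_mul_of_nonneg_left e1 hX0.le
      _ = (1 / 2) * (X / Real.log (X : ℝ) ^ U) := by rw [div_eq_mul_inv]; ring
  linarith

/-- **The `3x+1` map along random and metric sequences.** -/
theorem result :
    RandomAndMetric Good ∧
    (∀ ε : ℝ, 0 < ε → ∃ c : ℝ, 0 < c ∧ ∀ v δ γ τ : ℝ, 0 < v → v ≤ 1 → 0 < δ → 0 ≤ γ → 0 ≤ τ →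
      τ < γ - 1 + min v (c * δ) →
      ∀ (Ω : Type) [MeasurableSpace Ω] (μ : Measure Ω) (X : ℕ → Ω → ℕ) (C : ℝ) (M : ℕ → ℝ), (∀ n, 1 ≤ M n) →
        (Summable fun n => (M n) ^ (-τ)) →
        (∀ n k : ℕ, 1 ≤ k → μ {ω | X n ω = k} ≤ ENNReal.ofReal (C * (k : ℝ) ^ (-γ))) →
        ∑' n, μ {ω | (X n ω : ℝ) < M n} ≠ ∞ →
        ∀ᵐ ω ∂μ, ∀ᶠ n in atTop, 1 ≤ X n ω →
          Regular ε ((X n ω : ℝ) ^ δ) ((X n ω : ℝ) ^ (1 + v)) (X n ω)) ∧
    (∃ (c : ℝ → ℝ) (B₁ : ℝ), (∀ B : ℝ, B₁ ≤ B → 1 - DescentRates.H (Real.log 2 / Real.log 3) < c B) ∧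
      ∀ B : ℝ, 2 / Real.log (4 / 3) < B → 1 - DescentRates.H ((Real.log 2 - 1 / B) / Real.log 3) < c B ∧
      ∀ δ γ τ : ℝ, 0 < δ → 0 ≤ γ → 0 ≤ τ → τ < γ - 1 + min 1 (c B * δ) →
      ∀ (Ω : Type) [MeasurableSpace Ω] (μ : Measure Ω) (X : ℕ → Ω → ℕ) (C : ℝ) (M : ℕ → ℝ), (∀ n, 1 ≤ M n) →
        (Summable fun n => (M n) ^ (-τ)) →
        (∀ n k : ℕ, 1 ≤ k → μ {ω | X n ω = k} ≤ ENNReal.ofReal (C * (k : ℝ) ^ (-γ))) →
        ∑' n, μ {ω | (X n ω : ℝ) < M n} ≠ ∞ →
        ∀ᵐ ω ∂μ, ∀ᶠ n in atTop, 1 ≤ X n ω → Descends B ((X n ω : ℝ) ^ δ) (X n ω) ∧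
          ((∀ u : ℕ, 1 ≤ u → (u : ℝ) ≤ (X n ω : ℝ) ^ δ → Fast B u) → Fast B (X n ω))) := by
  refine ⟨randomAndMetric Good almost, fun ε hε => ?_, ?_⟩
  · obtain ⟨c, C, hc, hC, law⟩ := PowerSavingLaw.result ε hε
    refine ⟨c, hc, fun v δ γ τ hv hv1 hδ hγ hτ0 hτ Ω _ μ X C' M hM hMs hX hsmall => ?_⟩
    have h := Pool.Agent.J4.H57.RS.rand_power
      {n : ℕ | 1 ≤ n ∧ ¬ Regular ε ((n : ℝ) ^ δ) ((n : ℝ) ^ (1 + v)) n} (fun n : ℕ => (n : ℝ))
      (s := 1 - min v (c * δ)) hγ hτ0 (by linarith)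
      (Pool.Agent.N481.MV.two_scale (Bad := fun y V n => ¬ Regular ε y V n) hv hv1 hδ hC.le
        (fun y y' V V' n hy hV h h' => h (regular_mono hy hV h'))
        (fun x y V hx hy hV => by rw [add_comm (x ^ 2 / V)]; exact law x y V hx hy hV))
      μ X C' M hM hMs (fun n k _ hk => hX n k (by exact_mod_cast hk)) hsmall
    filter_upwards [h] with ω hω
    filter_upwards [hω] with n hn h1
    by_contra hcon
    exact hn ⟨h1, hcon⟩
  · obtain ⟨c, B₁, h1, h2⟩ := DescentRates.result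
    refine ⟨c, B₁, h1, fun B hB => ?_⟩
    obtain ⟨h3, C, hC, law⟩ := h2 B hB
    refine ⟨h3, fun δ γ τ hδ hγ hτ0 hτ Ω _ μ X C' M hM hMs hX hsmall => ?_⟩
    have h := Pool.Agent.J4.H57.RS.rand_power
      {n : ℕ | 1 ≤ n ∧ ¬ Descends B ((n : ℝ) ^ δ) n} (fun n : ℕ => (n : ℝ))
      (s := 1 - min 1 (c B * δ)) hγ hτ0 (by linarith)
      (Pool.Agent.N481.MV.two_scale (Bad := fun y _ n => ¬ Descends B y n) (c := c B) (v := 1) (p := 3)
          one_pos le_rfl hδ hC.le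
          (fun y y' V V' n hy hV h h' => h (desc_mono hy h'))
          (fun x y V hx hy hV => by
            have h1 : (0 : ℝ) ≤ x ^ 2 / V := div_nonneg (by positivity) (by linarith)
            have h2 : 0 ≤ C * Real.log x ^ 3 := by
              have := Real.log_nonneg (show (1 : ℝ) ≤ x by linarith)
              positivity
            exact (law x y hx hy).trans (mul_le_mul_of_nonneg_left (by linarith) h2)))
      μ X C' M hM hMs (fun n k _ hk => hX n k (by exact_mod_cast hk)) hsmall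
    filter_upwards [h] with ω hω
    filter_upwards [hω] with n hn h1
    have h4 : Descends B ((X n ω : ℝ) ^ δ) (X n ω) := by
      by_contra hcon
      exact hn ⟨h1, hcon⟩
    exact ⟨h4, fast_of h1 h4⟩

end Pool.Agent.Results.MP_a1568a_nt.TimesAlongRandomSequences
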